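import Mathlib

/-!
The algebraic construction: a dense family of `r`-sets on `N` points, no three of which lie in a
common `(r+1)`-set.
-/

namespace Pool.Agent.P.MP_7618c8_co
open Finset

/-- No three members `A ∪ {a,b}`, `A ∪ {a,c}`, `A ∪ {b,c}`. -/
def Free {V : Type*} [DecidableEq V] (G : Finset (Finset V)) : Prop :=
  ∀ (A : Finset V) (a b c : V), a ∉ A → b ∉ A → c ∉ A → a ≠ b → a ≠ c → b ≠ c →
    insert a (insert b A) ∈ G → insert a (insert c A) ∈ G → insert b (insert c A) ∈ G → False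

/-- Fibres of an additive map along translations that preserve a predicate. -/
lemma card_fiber_mul {Ω W : Type*} [AddCommGroup Ω] [AddCommGroup W] [Fintype Ω] [Fintype W]
    [DecidableEq W] (S : Ω → W) (P : Ω → Prop) [DecidablePred P]
    (h : ∀ t : W, ∃ δ : Ω, (∀ ω, S (ω + δ) = S ω + t) ∧ ∀ ω, (P (ω + δ) ↔ P ω)) :
    (univ.filter (fun ω => P ω ∧ S ω = 0)).card * Fintype.card W
      = (univ.filter P).card := by
  classical
  have h1 : (univ.filter P).card
      = ∑ t : W, ((univ.filter P).filter (fun ω => S ω = t)).card :=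
    Finset.card_eq_sum_card_fiberwise (f := S) (t := univ) (fun _ _ => Finset.mem_coe.2 (mem_univ _))
  rw [h1]
  have h2 : ∀ t : W, ((univ.filter P).filter (fun ω => S ω = t)).card
      = (univ.filter (fun ω => P ω ∧ S ω = 0)).card := by
    intro t
    obtain ⟨δ, hδ, hP⟩ := h t
    symm
    refine Finset.card_nbij' (fun ω => ω + δ) (fun ω => ω - δ) ?_ ?_ ?_ ?_
    · intro ω hω
      simp only [coe_filter, mem_univ, true_and, Set.mem_ofPred_eq, mem_filter] at hω ⊢
      exact ⟨(hP ω).2 hω.1, by rw [hδ, hω.2, zero_add]⟩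
    · intro ω hω
      simp only [coe_filter, mem_univ, true_and, Set.mem_ofPred_eq, mem_filter] at hω ⊢
      have e1 := hP (ω - δ)
      have e2 := hδ (ω - δ)
      rw [sub_add_cancel] at e1 e2
      refine ⟨e1.1 hω.1, ?_⟩
      rw [hω.2] at e2
      exact left_eq_add.1 (by rw [add_comm]; exact e2)
    · intro ω _; simp
    · intro ω _; simp
  simp [h2, mul_comm]

section K
variable {V F : Type*} [Fintype V] [DecidableEq V] [Field F] [DecidableEq F]

/-- Coefficient vectors with value `1` at `y`, values in `s` on `U`, and zero elsewhere. -/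
def K (s : Finset F) (U : Finset V) (y : V) : Finset (V → F) :=
  Fintype.piFinset (fun x => if x = y then {1} else if x ∈ U then s else {0})

omit [DecidableEq F] in
lemma mem_K {s : Finset F} {U : Finset V} {y : V} (hy : y ∉ U) {κ : V → F} :
    κ ∈ K s U y ↔ κ y = 1 ∧ (∀ x ∈ U, κ x ∈ s) ∧ ∀ x, x ≠ y → x ∉ U → κ x = 0 := by
  unfold K
  rw [Fintype.mem_piFinset]
  constructor
  · intro h
    refine ⟨by simpa using h y, fun x hx => ?_, fun x hx hx' => ?_⟩
    · have hxy : x ≠ y := fun e => hy (e ▸ hx)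
      simpa [hxy, hx] using h x
    · simpa [hx, hx'] using h x
  · rintro ⟨h1, h2, h3⟩ x
    by_cases hx : x = y
    · subst hx; simp [h1]
    · by_cases hU : x ∈ U
      · simp [hx, hU, h2 x hU]
      · simp [hx, hU, h3 x hx hU]

omit [DecidableEq F] in
lemma card_K (s : Finset F) {U : Finset V} {y : V} (hy : y ∉ U) :
    (K s U y).card = s.card ^ U.card := by
  unfold K
  rw [Fintype.card_piFinset]
  have : ∀ x : V, (if x = y then ({1} : Finset F) else if x ∈ U then s else {0}).card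
      = if x ∈ U then s.card else 1 := by
    intro x
    by_cases hx : x = y
    · subst hx; simp [hy]
    · by_cases hU : x ∈ U <;> simp [hx, hU]
  simp only [this]
  rw [Finset.prod_ite_mem, univ_inter, prod_const]

end K

section Main
variable {V F : Type*} [Fintype V] [DecidableEq V] [Field F] [Fintype F] [DecidableEq F] {d : ℕ}

/-- The linear relation with coefficients `κ`. -/
def S1 (κ : V → F) (ω : V → (Fin d → F) × F) : Fin d → F := ∑ x, κ x • (ω x).1

/-- The diagonal bilinear form. -/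
def B (κ l : V → F) (ω : V → (Fin d → F) × F) : F := ∑ x, κ x * l x * (ω x).2

def Ind (ω : V → (Fin d → F) × F) (U : Finset V) : Prop :=
  ∀ y ∈ U, ∀ κ ∈ K (univ : Finset F) (U.erase y) y, S1 κ ω ≠ 0

def NoExc (ω : V → (Fin d → F) × F) (U : Finset V) (x₀ : V) (l : V → F) : Prop :=
  ∀ w, w ≠ x₀ → w ∉ U → ∀ κ ∈ K (univ : Finset F) U w, (∃ y ∈ U, κ y ≠ 0) →
    S1 κ ω = 0 → B κ κ ω = 0 → B κ l ω ≠ 0

def Good (ω : V → (Fin d → F) × F) (e : Finset V) : Prop :=
  ∃ x₀ ∈ e, ∃ l ∈ K ((univ : Finset F).erase 0) (e.erase x₀) x₀,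
    S1 l ω = 0 ∧ B l l ω = 0 ∧ Ind ω (e.erase x₀) ∧ NoExc ω (e.erase x₀) x₀ l

omit [DecidableEq V] [Fintype F] [DecidableEq F] in
lemma S1_lin (a b : F) (κ l : V → F) (ω : V → (Fin d → F) × F) :
    S1 (fun x => a * κ x + b * l x) ω = a • S1 κ ω + b • S1 l ω := by
  unfold S1
  rw [smul_sum, smul_sum, ← sum_add_distrib]
  refine sum_congr rfl fun x _ => ?_
  rw [add_smul, mul_smul, mul_smul]

omit [DecidableEq V] [Fintype F] [DecidableEq F] in
lemma B_quad (a b : F) (κ l : V → F) (ω : V → (Fin d → F) × F) :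
    B (fun x => a * κ x + b * l x) (fun x => a * κ x + b * l x) ω
      = a ^ 2 * B κ κ ω + 2 * a * b * B κ l ω + b ^ 2 * B l l ω := by
  unfold B
  rw [mul_sum, mul_sum, mul_sum, ← sum_add_distrib, ← sum_add_distrib]
  refine sum_congr rfl fun x _ => ?_
  ring

lemma Ind.eq_zero {ω : V → (Fin d → F) × F} {U : Finset V} (h : Ind ω U) {κ : V → F}
    (hs : ∀ x, x ∉ U → κ x = 0) (h0 : S1 κ ω = 0) : κ = 0 := by
  by_contra hne
  obtain ⟨y, hy⟩ := Function.ne_iff.1 hne
  have hy : κ y ≠ 0 := hy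
  have hyU : y ∈ U := by
    by_contra h'
    exact hy (hs y h')
  refine h y hyU (fun x => (κ y)⁻¹ * κ x + 0 * κ x) ?_ ?_
  · rw [mem_K (notMem_erase y U)]
    refine ⟨by simp [hy], fun x _ => mem_univ _, fun x hx hx' => ?_⟩
    have : x ∉ U := fun hU => hx' (mem_erase.2 ⟨hx, hU⟩)
    simp [hs x this]
  · rw [S1_lin, h0]; simp

lemma Good.supp {ω : V → (Fin d → F) × F} {e : Finset V} (h : Good ω e) :
    ∃ l : V → F, (∀ x, l x ≠ 0 ↔ x ∈ e) ∧ S1 l ω = 0 ∧ B l l ω = 0 := by
  obtain ⟨x₀, hx₀, l, hl, h1, h2, -, -⟩ := h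
  rw [mem_K (notMem_erase x₀ e)] at hl
  refine ⟨l, fun x => ⟨fun hx => ?_, fun hx => ?_⟩, h1, h2⟩
  · by_contra hxe
    have hne : x ≠ x₀ := fun h => hxe (h ▸ hx₀)
    exact hx (hl.2.2 x hne (fun h => hxe (mem_of_mem_erase h)))
  · by_cases hne : x = x₀
    · rw [hne, hl.1]; exact one_ne_zero
    · exact (mem_erase.1 (hl.2.1 x (mem_erase.2 ⟨hne, hx⟩))).1

theorem free_good (h2 : (2 : F) ≠ 0) (ω : V → (Fin d → F) × F) (G : Finset (Finset V))
    (hG : ∀ e ∈ G, Good ω e) : Free G := by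
  intro A a b c ha hb hc hab hac hbc h1 h2' h3
  obtain ⟨β, hβ, hβ1, hβ2⟩ := (hG _ h2').supp
  obtain ⟨γ, hγ, hγ1, hγ2⟩ := (hG _ h1).supp
  obtain ⟨x₀, hx₀, l, hl, hl1, hl2, hI, hN⟩ := hG _ h3
  set e := insert b (insert c A) with he
  have hae : a ∉ e := by simp [he, hab, hac, ha]
  have hbe : b ∈ e := by simp [he]
  have hce : c ∈ e := by simp [he]
  have hax : a ≠ x₀ := fun h => hae (h ▸ hx₀)
  rw [mem_K (notMem_erase x₀ e)] at hl
  have hlout : ∀ x, x ∉ e → l x = 0 := fun x hx =>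
    hl.2.2 x (fun h => hx (h ▸ hx₀)) (fun h => hx (mem_of_mem_erase h))
  have hlin : ∀ x, x ∈ e → l x ≠ 0 := by
    intro x hx
    by_cases hne : x = x₀
    · rw [hne, hl.1]; exact one_ne_zero
    · exact (mem_erase.1 (hl.2.1 x (mem_erase.2 ⟨hne, hx⟩))).1
  have hβa : β a ≠ 0 := (hβ a).2 (by simp)
  have hγa : γ a ≠ 0 := (hγ a).2 (by simp)
  have hβb : β b = 0 := by
    by_contra h
    have := (hβ b).1 h
    simp [hab.symm, hbc, hb] at this
  have hγc : γ c = 0 := by
    by_contra h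
    have := (hγ c).1 h
    simp [hac.symm, hbc.symm, hc] at this
  have hγb : γ b ≠ 0 := (hγ b).2 (by simp)
  have hβout : ∀ x, x ≠ a → x ∉ e → β x = 0 := by
    intro x hx hxe
    by_contra h
    have := (hβ x).1 h
    apply hxe
    simp only [he, mem_insert] at this ⊢
    tauto
  have hγout : ∀ x, x ≠ a → x ∉ e → γ x = 0 := by
    intro x hx hxe
    by_contra h
    have := (hγ x).1 h
    apply hxe
    simp only [he, mem_insert] at this ⊢
    tauto
  set s : F := (β a)⁻¹ * β x₀ with hs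
  set s' : F := (γ a)⁻¹ * γ x₀ with hs'
  set κ : V → F := fun x => (β a)⁻¹ * β x + (-s) * l x with hκ
  set κ' : V → F := fun x => (γ a)⁻¹ * γ x + (-s') * l x with hκ'
  have hκ1 : S1 κ ω = 0 := by rw [hκ, S1_lin, hβ1, hl1]; simp
  have hκ'1 : S1 κ' ω = 0 := by rw [hκ', S1_lin, hγ1, hl1]; simp
  have hκa : κ a = 1 := by simp [hκ, hβa, hlout a hae]
  have hκ'a : κ' a = 1 := by simp [hκ', hγa, hlout a hae]
  have hκx : κ x₀ = 0 := by simp [hκ, hl.1, hs]
  have hκ'x : κ' x₀ = 0 := by simp [hκ', hl.1, hs']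
  have hκout : ∀ x, x ≠ a → x ∉ e.erase x₀ → κ x = 0 := by
    intro x hx hxe
    by_cases hne : x = x₀
    · rw [hne, hκx]
    · have : x ∉ e := fun h => hxe (mem_erase.2 ⟨hne, h⟩)
      simp [hκ, hβout x hx this, hlout x this]
  have hκ'out : ∀ x, x ≠ a → x ∉ e.erase x₀ → κ' x = 0 := by
    intro x hx hxe
    by_cases hne : x = x₀
    · rw [hne, hκ'x]
    · have : x ∉ e := fun h => hxe (mem_erase.2 ⟨hne, h⟩)
      simp [hκ', hγout x hx this, hlout x this]
  have heq : (fun x => (1 : F) * κ x + (-1) * κ' x) = 0 := by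
    refine hI.eq_zero (fun x hx => ?_) (by rw [S1_lin, hκ1, hκ'1]; simp)
    by_cases hxa : x = a
    · rw [hxa, hκa, hκ'a]; ring
    · rw [hκout x hxa hx, hκ'out x hxa hx]; ring
  have heq' : ∀ x, κ' x = κ x := by
    intro x
    have := congrFun heq x
    simp only [Pi.zero_apply] at this
    linear_combination -this
  have e1 : (fun x => (1 : F) * κ x + s * l x) = fun x => (β a)⁻¹ * β x + 0 * β x := by
    funext x; simp only [hκ]; ring
  have e2 : (fun x => (1 : F) * κ x + s' * l x) = fun x => (γ a)⁻¹ * γ x + 0 * γ x := by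
    funext x; rw [← heq' x]; simp only [hκ']; ring
  have q1 := B_quad 1 s κ l ω
  rw [e1, B_quad, hβ2, hl2] at q1
  have q2 := B_quad 1 s' κ l ω
  rw [e2, B_quad, hγ2, hl2] at q2
  have hss : s ≠ s' := by
    intro h
    have t1 := congrFun e1 b
    have t2 := congrFun e2 b
    rw [← h, t1, hβb] at t2
    simp [hγa, hγb] at t2
  have hB : B κ l ω = 0 := by
    have : (2 * (s - s')) * B κ l ω = 0 := by linear_combination q2 - q1
    exact (mul_eq_zero.1 this).resolve_left (mul_ne_zero h2 (sub_ne_zero.2 hss))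
  have hQ : B κ κ ω = 0 := by
    rw [hB] at q1
    linear_combination -q1
  have haU : a ∉ e.erase x₀ := fun h => hae (mem_of_mem_erase h)
  refine hN a hax haU κ ?_ ?_ hκ1 hQ hB
  · rw [mem_K haU]
    exact ⟨hκa, fun x _ => mem_univ _, hκout⟩
  · have hκb : κ b = -s * l b := by simp [hκ, hβb]
    have hκc : κ c = -s' * l c := by rw [← heq' c]; simp [hκ', hγc]
    by_cases hs0 : s = 0
    · have hs'0 : s' ≠ 0 := fun h => hss (hs0.trans h.symm)
      have : κ c ≠ 0 := by
        rw [hκc]; exact mul_ne_zero (neg_ne_zero.2 hs'0) (hlin c hce)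
      exact ⟨c, mem_erase.2 ⟨fun h => this (h ▸ hκx), hce⟩, this⟩
    · have : κ b ≠ 0 := by
        rw [hκb]; exact mul_ne_zero (neg_ne_zero.2 hs0) (hlin b hbe)
      exact ⟨b, mem_erase.2 ⟨fun h => this (h ▸ hκx), hbe⟩, this⟩

end Main

end Pool.Agent.P.MP_7618c8_co
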