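import Pool.Agent.P.MP_7618c8_co.Construction

/-!
Counting: a fixed `(d+1)`-set is good for many labellings.
-/

namespace Pool.Agent.P.MP_7618c8_co
open Finset

section Main
variable {V F : Type*} [Fintype V] [DecidableEq V] [Field F] [Fintype F] [DecidableEq F] {d : ℕ}

omit [Fintype F] [DecidableEq F] in
lemma S1_add_single (κ : V → F) (ω : V → (Fin d → F) × F) (p : V) (t : (Fin d → F) × F) :
    S1 κ (ω + Pi.single p t) = S1 κ ω + κ p • t.1 := by
  unfold S1
  simp only [Pi.add_apply, Prod.fst_add, smul_add, sum_add_distrib]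
  congr 1
  rw [Finset.sum_eq_single p]
  · simp
  · intro x _ hx
    simp [Pi.single_eq_of_ne hx]
  · simp

omit [Fintype F] [DecidableEq F] in
lemma B_add_single (κ l : V → F) (ω : V → (Fin d → F) × F) (p : V) (t : (Fin d → F) × F) :
    B κ l (ω + Pi.single p t) = B κ l ω + κ p * l p * t.2 := by
  unfold B
  simp only [Pi.add_apply, Prod.snd_add, mul_add, sum_add_distrib]
  congr 1
  rw [Finset.sum_eq_single p]
  · simp
  · intro x _ hx
    simp [Pi.single_eq_of_ne hx]
  · simp

/-- One linear relation holds for a `q^{-d}` share of the labellings. -/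
lemma card_S1 (κ : V → F) (y : V) (hy : κ y = 1) :
    (univ.filter (fun ω : V → (Fin d → F) × F => S1 κ ω = 0)).card * Fintype.card F ^ d
      = Fintype.card (V → (Fin d → F) × F) := by
  have := card_fiber_mul (Ω := V → (Fin d → F) × F) (W := Fin d → F) (S1 κ) (fun _ => True)
    (fun t => ⟨Pi.single y (t, 0), fun ω => by rw [S1_add_single, hy, one_smul], fun _ => Iff.rfl⟩)
  simpa using this

lemma card_B (κ l : V → F) (y : V) (hy : κ y * l y ≠ 0) :
    (univ.filter (fun ω : V → (Fin d → F) × F => B κ l ω = 0)).card * Fintype.card F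
      = Fintype.card (V → (Fin d → F) × F) := by
  have := card_fiber_mul (Ω := V → (Fin d → F) × F) (W := F) (B κ l) (fun _ => True)
    (fun t => ⟨Pi.single y (0, (κ y * l y)⁻¹ * t), fun ω => by
      rw [B_add_single, mul_inv_cancel_left₀ hy], fun _ => Iff.rfl⟩)
  simpa using this

/-- The relation and the quadratic condition, on top of a predicate that ignores the point `y`. -/
lemma card_S1_B (κ : V → F) (y : V) (hy : κ y = 1) (P : (V → (Fin d → F) × F) → Prop)
    [DecidablePred P] (hP : ∀ t ω, P (ω + Pi.single y t) ↔ P ω) :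
    (univ.filter (fun ω => P ω ∧ S1 κ ω = 0 ∧ B κ κ ω = 0)).card * Fintype.card F ^ (d + 1)
      = (univ.filter P).card := by
  have := card_fiber_mul (Ω := V → (Fin d → F) × F) (W := (Fin d → F) × F)
    (fun ω => (S1 κ ω, B κ κ ω)) P
    (fun t => ⟨Pi.single y t, fun ω => by
      rw [S1_add_single, B_add_single, hy]; ext <;> simp, fun ω => hP t ω⟩)
  rw [← this]
  simp [pow_succ]

lemma card_exc (κ l : V → F) (w y : V) (hw : κ w = 1) (hlw : l w = 0) (hy : κ y * l y ≠ 0) :
    (univ.filter (fun ω : V → (Fin d → F) × F =>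
        B κ l ω = 0 ∧ S1 κ ω = 0 ∧ B κ κ ω = 0)).card * Fintype.card F ^ (d + 2)
      = Fintype.card (V → (Fin d → F) × F) := by
  rw [← card_B (d := d) κ l y hy, ← card_S1_B κ w hw (fun ω => B κ l ω = 0)
    (fun t ω => by rw [B_add_single, hlw]; simp)]
  ring

open Classical in
lemma card_not_Ind (U : Finset V) (hU : U.card = d) :
    (univ.filter (fun ω : V → (Fin d → F) × F => ¬ Ind ω U)).card * Fintype.card F
      ≤ d * Fintype.card (V → (Fin d → F) × F) := by
  set q := Fintype.card F with hq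
  set M := Fintype.card (V → (Fin d → F) × F) with hM
  have hq0 : 0 < q := Fintype.card_pos
  have hsub : univ.filter (fun ω : V → (Fin d → F) × F => ¬ Ind ω U) ⊆
      U.biUnion (fun y => (K (univ : Finset F) (U.erase y) y).biUnion
        (fun κ => univ.filter (fun ω => S1 κ ω = 0))) := by
    intro ω hω
    simp only [mem_filter, mem_univ, true_and, Ind, not_forall, not_not, mem_biUnion] at hω ⊢
    obtain ⟨y, hy, κ, hκ, h0⟩ := hω
    exact ⟨y, hy, κ, hκ, by simpa using h0⟩
  have h1 := (card_le_card hsub).trans card_biUnion_le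
  have h2 : ∀ y ∈ U, ((K (univ : Finset F) (U.erase y) y).biUnion
        (fun κ => univ.filter (fun ω : V → (Fin d → F) × F => S1 κ ω = 0))).card * q ≤ M := by
    intro y hy
    have hd : d = (d - 1) + 1 := by
      have : 0 < U.card := card_pos.2 ⟨y, hy⟩
      omega
    have h3 : ((K (univ : Finset F) (U.erase y) y).biUnion
        (fun κ => univ.filter (fun ω : V → (Fin d → F) × F => S1 κ ω = 0))).card * q ^ d
          ≤ q ^ (d - 1) * M := by
      refine (Nat.mul_le_mul_right _ card_biUnion_le).trans ?_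
      rw [sum_mul]
      rw [Finset.sum_congr rfl (g := fun _ => M) (fun κ hκ =>
        card_S1 κ y ((mem_K (notMem_erase y U)).1 hκ).1)]
      rw [sum_const, card_K _ (notMem_erase y U), card_erase_of_mem hy, hU, smul_eq_mul]
      simp [hq]
    have h4 : q ^ d = q ^ (d - 1) * q := by
      conv_lhs => rw [hd, pow_succ]
    rw [h4] at h3
    refine Nat.le_of_mul_le_mul_left ?_ (pow_pos hq0 (d - 1))
    calc q ^ (d - 1) * (_ * q) = _ * (q ^ (d - 1) * q) := by ring
      _ ≤ _ := h3
  calc _ ≤ (∑ y ∈ U, ((K (univ : Finset F) (U.erase y) y).biUnion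
        (fun κ => univ.filter (fun ω : V → (Fin d → F) × F => S1 κ ω = 0))).card) * q :=
        Nat.mul_le_mul_right _ h1
    _ ≤ ∑ _y ∈ U, M := by rw [sum_mul]; exact sum_le_sum h2
    _ = d * M := by rw [sum_const, hU, smul_eq_mul]

open Classical in
lemma card_not_NoExc (U : Finset V) (hU : U.card = d) (x₀ : V) (hx₀ : x₀ ∉ U) (l : V → F)
    (hl : l ∈ K ((univ : Finset F).erase 0) U x₀) :
    (univ.filter (fun ω : V → (Fin d → F) × F => ¬ NoExc ω U x₀ l)).card * Fintype.card F ^ 2
      ≤ Fintype.card V * Fintype.card (V → (Fin d → F) × F) := by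
  set q := Fintype.card F with hq
  set M := Fintype.card (V → (Fin d → F) × F) with hM
  have hq0 : 0 < q := Fintype.card_pos
  rw [mem_K hx₀] at hl
  have hsub : univ.filter (fun ω : V → (Fin d → F) × F => ¬ NoExc ω U x₀ l) ⊆
      (univ.filter (fun w => w ≠ x₀ ∧ w ∉ U)).biUnion (fun w =>
        ((K (univ : Finset F) U w).filter (fun κ => ∃ y ∈ U, κ y ≠ 0)).biUnion
        (fun κ => univ.filter (fun ω => B κ l ω = 0 ∧ S1 κ ω = 0 ∧ B κ κ ω = 0))) := by
    intro ω hω
    simp only [mem_filter, mem_univ, true_and, NoExc, not_forall, not_not, mem_biUnion] at hω ⊢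
    obtain ⟨w, hw, hwU, κ, hκ, hy, h1, h2, h3⟩ := hω
    exact ⟨w, ⟨hw, hwU⟩, κ, ⟨hκ, hy⟩, by simpa using h3, h1, h2⟩
  have h1 := (card_le_card hsub).trans card_biUnion_le
  have h2 : ∀ w ∈ univ.filter (fun w => w ≠ x₀ ∧ w ∉ U),
      (((K (univ : Finset F) U w).filter (fun κ => ∃ y ∈ U, κ y ≠ 0)).biUnion
        (fun κ => univ.filter (fun ω : V → (Fin d → F) × F =>
          B κ l ω = 0 ∧ S1 κ ω = 0 ∧ B κ κ ω = 0))).card * q ^ 2 ≤ M := by
    intro w hw
    obtain ⟨hwx, hwU⟩ := (mem_filter.1 hw).2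
    have h3 : (((K (univ : Finset F) U w).filter (fun κ => ∃ y ∈ U, κ y ≠ 0)).biUnion
        (fun κ => univ.filter (fun ω : V → (Fin d → F) × F =>
          B κ l ω = 0 ∧ S1 κ ω = 0 ∧ B κ κ ω = 0))).card * q ^ (d + 2) ≤ q ^ d * M := by
      refine (Nat.mul_le_mul_right _ card_biUnion_le).trans ?_
      rw [sum_mul]
      rw [Finset.sum_congr rfl (g := fun _ => M) (fun κ hκ => by
        obtain ⟨hκ1, y, hy, hκy⟩ := mem_filter.1 hκ
        exact card_exc κ l w y ((mem_K hwU).1 hκ1).1 (hl.2.2 w hwx hwU)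
          (mul_ne_zero hκy (mem_erase.1 (hl.2.1 y hy)).1))]
      rw [sum_const, smul_eq_mul]
      refine Nat.mul_le_mul_right _ ((card_filter_le _ _).trans ?_)
      rw [card_K _ hwU, hU]
      simp [hq]
    refine Nat.le_of_mul_le_mul_left ?_ (pow_pos hq0 d)
    calc q ^ d * (_ * q ^ 2) = _ * q ^ (d + 2) := by ring
      _ ≤ _ := h3
  calc _ ≤ (∑ w ∈ univ.filter (fun w => w ≠ x₀ ∧ w ∉ U),
      (((K (univ : Finset F) U w).filter (fun κ => ∃ y ∈ U, κ y ≠ 0)).biUnion
        (fun κ => univ.filter (fun ω : V → (Fin d → F) × F =>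
          B κ l ω = 0 ∧ S1 κ ω = 0 ∧ B κ κ ω = 0))).card) * q ^ 2 :=
        Nat.mul_le_mul_right _ h1
    _ ≤ ∑ _w ∈ univ.filter (fun w => w ≠ x₀ ∧ w ∉ U), M := by
        rw [sum_mul]; exact sum_le_sum h2
    _ ≤ Fintype.card V * M := by
        rw [sum_const, smul_eq_mul]
        exact Nat.mul_le_mul_right _ (card_le_univ _)

omit [DecidableEq F] in
lemma Ind_add_single (U : Finset V) (x₀ : V) (hx₀ : x₀ ∉ U) (t : (Fin d → F) × F)
    (ω : V → (Fin d → F) × F) : Ind (ω + Pi.single x₀ t) U ↔ Ind ω U := by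
  unfold Ind
  refine forall₂_congr fun y hy => forall₂_congr fun κ hκ => ?_
  have : κ x₀ = 0 := ((mem_K (notMem_erase y U)).1 hκ).2.2 x₀ (fun h => hx₀ (h ▸ hy))
    (fun h => hx₀ (mem_of_mem_erase h))
  rw [S1_add_single, this]
  simp

omit [DecidableEq F] in
lemma NoExc_add_single (U : Finset V) (x₀ : V) (hx₀ : x₀ ∉ U) (l : V → F) (t : (Fin d → F) × F)
    (ω : V → (Fin d → F) × F) : NoExc (ω + Pi.single x₀ t) U x₀ l ↔ NoExc ω U x₀ l := by
  unfold NoExc
  refine forall₃_congr fun w hw hwU => forall₂_congr fun κ hκ => ?_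
  have : κ x₀ = 0 := ((mem_K hwU).1 hκ).2.2 x₀ hw.symm hx₀
  rw [S1_add_single, B_add_single, B_add_single, this]
  simp

open Classical in
/-- The share of labellings for which a fixed `(d+1)`-set is good. -/
lemma card_good (e : Finset V) (he : e.card = d + 1) :
    ((Fintype.card F : ℝ) - 1) ^ d / (Fintype.card F : ℝ) ^ (d + 1)
        * (1 - d / (Fintype.card F : ℝ) - Fintype.card V / (Fintype.card F : ℝ) ^ 2)
        * Fintype.card (V → (Fin d → F) × F)
      ≤ (univ.filter (fun ω : V → (Fin d → F) × F => Good ω e)).card := by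
  set q := Fintype.card F with hq
  set M := Fintype.card (V → (Fin d → F) × F) with hM
  have hq0 : 0 < q := Fintype.card_pos
  have hqR : (0 : ℝ) < q := by exact_mod_cast hq0
  obtain ⟨x₀, hx₀⟩ : e.Nonempty := card_pos.1 (by omega)
  set U := e.erase x₀ with hUdef
  have hU : U.card = d := by rw [hUdef, card_erase_of_mem hx₀, he]; rfl
  have hxU : x₀ ∉ U := notMem_erase x₀ e
  set L := K ((univ : Finset F).erase 0) U x₀ with hL
  let A : (V → F) → Finset (V → (Fin d → F) × F) := fun l =>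
    univ.filter (fun ω => (Ind ω U ∧ NoExc ω U x₀ l) ∧ S1 l ω = 0 ∧ B l l ω = 0)
  have hsub : L.biUnion A ⊆ univ.filter (fun ω : V → (Fin d → F) × F => Good ω e) := by
    intro ω hω
    obtain ⟨l, hl, hω⟩ := mem_biUnion.1 hω
    obtain ⟨⟨h1, h2⟩, h3, h4⟩ := (mem_filter.1 hω).2
    exact mem_filter.2 ⟨mem_univ _, x₀, hx₀, l, hl, h3, h4, h1, h2⟩
  have hdisj : (L : Set (V → F)).PairwiseDisjoint A := by
    intro l hl l' hl' hne
    rw [Function.onFun, disjoint_left]
    intro ω hω hω'
    obtain ⟨⟨h1, -⟩, h3, -⟩ := (mem_filter.1 hω).2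
    obtain ⟨-, h3', -⟩ := (mem_filter.1 hω').2
    have hl := (mem_K hxU).1 (mem_coe.1 hl)
    have hl' := (mem_K hxU).1 (mem_coe.1 hl')
    have := h1.eq_zero (κ := fun x => (1 : F) * l x + (-1) * l' x) (fun x hx => by
      by_cases hxx : x = x₀
      · rw [hxx, hl.1, hl'.1]; ring
      · rw [hl.2.2 x hxx hx, hl'.2.2 x hxx hx]; ring) (by rw [S1_lin, h3, h3']; simp)
    apply hne
    funext x
    have := congrFun this x
    simp only [Pi.zero_apply] at this
    linear_combination this
  have hA : ∀ l ∈ L, (1 - d / (q : ℝ) - Fintype.card V / (q : ℝ) ^ 2) * M / (q : ℝ) ^ (d + 1)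
      ≤ (A l).card := by
    intro l hl
    have h1 := card_S1_B (d := d) l x₀ ((mem_K hxU).1 hl).1 (fun ω => Ind ω U ∧ NoExc ω U x₀ l)
      (fun t ω => by rw [Ind_add_single U x₀ hxU, NoExc_add_single U x₀ hxU])
    have h2 := card_not_Ind (F := F) U hU
    have h3 := card_not_NoExc (d := d) U hU x₀ hxU l hl
    have h4 : M ≤ (univ.filter (fun ω : V → (Fin d → F) × F => Ind ω U ∧ NoExc ω U x₀ l)).card
        + (univ.filter (fun ω : V → (Fin d → F) × F => ¬ Ind ω U)).card
        + (univ.filter (fun ω : V → (Fin d → F) × F => ¬ NoExc ω U x₀ l)).card := by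
      refine le_trans ?_ (Nat.add_le_add_right (card_union_le _ _) _)
      refine le_trans ?_ (card_union_le _ _)
      rw [hM, ← card_univ]
      refine card_le_card fun ω _ => ?_
      simp only [mem_union, mem_filter, mem_univ, true_and]
      tauto
    rw [div_le_iff₀ (pow_pos hqR _)]
    have h1' : ((A l).card : ℝ) * (q : ℝ) ^ (d + 1) =
        (univ.filter (fun ω : V → (Fin d → F) × F => Ind ω U ∧ NoExc ω U x₀ l)).card := by
      exact_mod_cast h1
    rw [h1']
    have h2' : ((univ.filter (fun ω : V → (Fin d → F) × F => ¬ Ind ω U)).card : ℝ)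
        ≤ d / q * M := by
      rw [div_mul_eq_mul_div, le_div_iff₀ hqR]
      exact_mod_cast h2
    have h3' : ((univ.filter (fun ω : V → (Fin d → F) × F => ¬ NoExc ω U x₀ l)).card : ℝ)
        ≤ Fintype.card V / (q : ℝ) ^ 2 * M := by
      rw [div_mul_eq_mul_div, le_div_iff₀ (pow_pos hqR _)]
      exact_mod_cast h3
    have h4' : (M : ℝ) ≤
        (univ.filter (fun ω : V → (Fin d → F) × F => Ind ω U ∧ NoExc ω U x₀ l)).card
        + (univ.filter (fun ω : V → (Fin d → F) × F => ¬ Ind ω U)).card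
        + (univ.filter (fun ω : V → (Fin d → F) × F => ¬ NoExc ω U x₀ l)).card := by
      exact_mod_cast h4
    nlinarith
  have hLc : (L.card : ℝ) = ((q : ℝ) - 1) ^ d := by
    rw [hL, card_K _ hxU, hU, card_erase_of_mem (mem_univ _), card_univ, ← hq]
    push_cast [Nat.cast_sub hq0]
    rfl
  calc _ = ∑ _l ∈ L, (1 - d / (q : ℝ) - Fintype.card V / (q : ℝ) ^ 2) * M / (q : ℝ) ^ (d + 1) := by
        rw [sum_const, nsmul_eq_mul, hLc]; ring
    _ ≤ ∑ l ∈ L, ((A l).card : ℝ) := sum_le_sum hA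
    _ = ((L.biUnion A).card : ℝ) := by rw [card_biUnion hdisj]; push_cast; rfl
    _ ≤ _ := by exact_mod_cast card_le_card hsub

/-- A dense family exists on any finite vertex set. -/
theorem exists_free_dense (V F : Type*) [Fintype V] [DecidableEq V] [Field F] [Fintype F]
    (h2 : (2 : F) ≠ 0) (d : ℕ) :
    ∃ G : Finset (Finset V), (∀ e ∈ G, e.card = d + 1) ∧ Free G ∧
      ((Fintype.card F : ℝ) - 1) ^ d / (Fintype.card F : ℝ) ^ (d + 1)
        * (1 - d / (Fintype.card F : ℝ) - Fintype.card V / (Fintype.card F : ℝ) ^ 2)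
        * (Fintype.card V).choose (d + 1) ≤ G.card := by
  classical
  set p : ℝ := ((Fintype.card F : ℝ) - 1) ^ d / (Fintype.card F : ℝ) ^ (d + 1)
        * (1 - d / (Fintype.card F : ℝ) - Fintype.card V / (Fintype.card F : ℝ) ^ 2) with hp
  let G : (V → (Fin d → F) × F) → Finset (Finset V) := fun ω =>
    (powersetCard (d + 1) (univ : Finset V)).filter (fun e => Good ω e)
  have hsum : ∑ _ω : V → (Fin d → F) × F, p * (Fintype.card V).choose (d + 1)
      ≤ ∑ ω : V → (Fin d → F) × F, ((G ω).card : ℝ) := by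
    have h1 : ∑ ω : V → (Fin d → F) × F, (G ω).card
        = ∑ e ∈ powersetCard (d + 1) (univ : Finset V),
          (univ.filter (fun ω : V → (Fin d → F) × F => Good ω e)).card := by
      simp only [G, card_filter]
      exact sum_comm
    have h1' : ∑ ω : V → (Fin d → F) × F, ((G ω).card : ℝ)
        = ∑ e ∈ powersetCard (d + 1) (univ : Finset V),
          ((univ.filter (fun ω : V → (Fin d → F) × F => Good ω e)).card : ℝ) := by
      exact_mod_cast h1
    rw [h1']
    refine le_trans ?_ (sum_le_sum fun e he => card_good (F := F) e (mem_powersetCard.1 he).2)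
    rw [sum_const, sum_const, card_powersetCard, card_univ, card_univ, nsmul_eq_mul, nsmul_eq_mul]
    apply le_of_eq
    ring
  obtain ⟨ω, -, hω⟩ := exists_le_of_sum_le univ_nonempty hsum
  exact ⟨G ω, fun e he => (mem_powersetCard.1 (mem_filter.1 he).1).2,
    free_good h2 ω _ (fun e he => (mem_filter.1 he).2), hω⟩

end Main

end Pool.Agent.P.MP_7618c8_co
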