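import Pool.Agent.P.MP_7618c8_co.Counting

/-!
Blow-up, averaging, and the two bounds on the limit density.
-/

namespace Pool.Agent.P.MP_7618c8_co
open Finset Filter Topology

open Classical in
/-- The largest size of an `r`-uniform family on `n` points with no forbidden triple. -/
noncomputable def exF (n r : ℕ) : ℕ :=
  ((univ : Finset (Finset (Finset (Fin n)))).filter
    (fun G => (∀ e ∈ G, e.card = r) ∧ Free G)).sup card

lemma le_exF {n r : ℕ} {G : Finset (Finset (Fin n))} (h1 : ∀ e ∈ G, e.card = r) (h2 : Free G) :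
    G.card ≤ exF n r := by
  classical
  unfold exF
  exact Finset.le_sup (f := card) (mem_filter.2 ⟨mem_univ _, h1, h2⟩)

lemma exists_exF (n r : ℕ) :
    ∃ G : Finset (Finset (Fin n)), (∀ e ∈ G, e.card = r) ∧ Free G ∧ G.card = exF n r := by
  classical
  have hne : ((univ : Finset (Finset (Finset (Fin n)))).filter
      (fun G => (∀ e ∈ G, e.card = r) ∧ Free G)).Nonempty :=
    ⟨∅, mem_filter.2 ⟨mem_univ _, by simp, fun _ _ _ _ _ _ _ _ _ _ h => by simp at h⟩⟩
  obtain ⟨G, hG, h⟩ := Finset.exists_mem_eq_sup _ hne card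
  obtain ⟨h1, h2⟩ := (mem_filter.1 hG).2
  exact ⟨G, h1, h2, by unfold exF; convert h.symm⟩

/-- The members of a free family inside an `n`-set number at most `exF n r`. -/
lemma card_filter_le_exF {V : Type*} [DecidableEq V] {r : ℕ} {G : Finset (Finset V)}
    (h1 : ∀ e ∈ G, e.card = r) (h2 : Free G) (U : Finset V) :
    (G.filter (fun e => e ⊆ U)).card ≤ exF U.card r := by
  classical
  let φ : Fin U.card ↪ V := U.equivFin.symm.toEmbedding.trans (Function.Embedding.subtype _)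
  have hφ : univ.map φ = U := by
    ext x
    simp only [Finset.mem_map, mem_univ, true_and]
    constructor
    · rintro ⟨i, rfl⟩
      exact (U.equivFin.symm i).2
    · intro hx
      exact ⟨U.equivFin ⟨x, hx⟩, by simp [φ]⟩
  let G' : Finset (Finset (Fin U.card)) := univ.filter (fun s => s.map φ ∈ G)
  have hG'1 : ∀ e ∈ G', e.card = r := fun e he => by
    rw [← h1 _ (mem_filter.1 he).2, card_map]
  have hG'2 : Free G' := by
    intro A a b c ha hb hc hab hac hbc e1 e2 e3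
    have e1 := (mem_filter.1 e1).2
    have e2 := (mem_filter.1 e2).2
    have e3 := (mem_filter.1 e3).2
    rw [map_insert, map_insert] at e1 e2 e3
    exact h2 (A.map φ) (φ a) (φ b) (φ c) (by simpa using ha) (by simpa using hb)
      (by simpa using hc) (φ.injective.ne hab) (φ.injective.ne hac) (φ.injective.ne hbc) e1 e2 e3
  refine le_trans ?_ (le_exF hG'1 hG'2)
  refine le_trans (card_le_card ?_) (card_image_le (s := G') (f := fun s => s.map φ))
  intro e he
  obtain ⟨he1, he2⟩ := mem_filter.1 he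
  rw [← hφ, subset_map_iff] at he2
  obtain ⟨s, -, rfl⟩ := he2
  exact mem_image.2 ⟨s, mem_filter.2 ⟨mem_univ _, he1⟩, rfl⟩

lemma card_le_exF {V : Type*} [Fintype V] [DecidableEq V] {r : ℕ} {G : Finset (Finset V)}
    (h1 : ∀ e ∈ G, e.card = r) (h2 : Free G) : G.card ≤ exF (Fintype.card V) r := by
  have := card_filter_le_exF h1 h2 univ
  rwa [filter_true_of_mem (fun _ _ => subset_univ _), card_univ] at this

/-- Averaging over vertex deletions. -/
lemma exF_succ (n r : ℕ) : (n + 1 - r) * exF (n + 1) r ≤ (n + 1) * exF n r := by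
  classical
  obtain ⟨G, h1, h2, h3⟩ := exists_exF (n + 1) r
  rw [← h3]
  have hs : ∑ v : Fin (n + 1), (G.filter (fun e => e ⊆ univ.erase v)).card
      = ∑ e ∈ G, (univ.filter (fun v : Fin (n + 1) => e ⊆ univ.erase v)).card := by
    simp only [card_filter]
    exact sum_comm
  have h4 : ∀ e ∈ G, (univ.filter (fun v : Fin (n + 1) => e ⊆ univ.erase v)).card = n + 1 - r := by
    intro e he
    have : univ.filter (fun v : Fin (n + 1) => e ⊆ univ.erase v) = eᶜ := by
      ext v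
      simp [subset_erase]
    rw [this, card_compl, h1 e he, Fintype.card_fin]
  rw [sum_congr rfl h4, sum_const, smul_eq_mul] at hs
  rw [mul_comm, ← hs]
  have h5 : ∀ v ∈ (univ : Finset (Fin (n + 1))),
      (G.filter (fun e => e ⊆ univ.erase v)).card ≤ exF n r := by
    intro v _
    have := card_filter_le_exF h1 h2 (univ.erase v)
    rwa [card_erase_of_mem (mem_univ _), card_univ, Fintype.card_fin, Nat.add_sub_cancel] at this
  refine (sum_le_sum h5).trans ?_
  rw [sum_const, card_univ, Fintype.card_fin, smul_eq_mul]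

lemma ratio_succ_le {n r : ℕ} (h : r ≤ n) :
    (exF (n + 1) r : ℝ) / ((n + 1).choose r : ℕ) ≤ (exF n r : ℝ) / (n.choose r : ℕ) := by
  have c1 : (0 : ℝ) < (n.choose r : ℕ) := by exact_mod_cast Nat.choose_pos h
  have c2 : (0 : ℝ) < ((n + 1).choose r : ℕ) := by
    exact_mod_cast Nat.choose_pos (h.trans (Nat.le_succ n))
  rw [div_le_div_iff₀ c2 c1]
  have h1 := exF_succ n r
  have h2 := Nat.choose_mul_succ_eq n r
  have h3 : exF (n + 1) r * n.choose r ≤ exF n r * (n + 1).choose r := by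
    refine Nat.le_of_mul_le_mul_left ?_ (Nat.succ_pos n)
    calc (n + 1) * (exF (n + 1) r * n.choose r) = exF (n + 1) r * (n.choose r * (n + 1)) := by ring
      _ = (n + 1 - r) * exF (n + 1) r * (n + 1).choose r := by rw [h2]; ring
      _ ≤ (n + 1) * exF n r * (n + 1).choose r := Nat.mul_le_mul_right _ h1
      _ = _ := mul_assoc _ _ _
  exact_mod_cast h3

lemma ratio_antitone (r : ℕ) :
    Antitone (fun k => (exF (k + r) r : ℝ) / ((k + r).choose r : ℕ)) := by
  refine antitone_nat_of_succ_le fun k => ?_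
  have := ratio_succ_le (n := k + r) (r := r) (Nat.le_add_left r k)
  rwa [show k + r + 1 = k + 1 + r by ring] at this

/-- On `r + 1` points at most two members. -/
lemma exF_succ_self (r : ℕ) : exF (r + 1) r ≤ 2 := by
  classical
  obtain ⟨G, h1, h2, h3⟩ := exists_exF (r + 1) r
  rw [← h3]
  by_contra hlt
  obtain ⟨e1, e2, e3, he1, he2, he3, h12, h13, h23⟩ := two_lt_card_iff.1 (not_le.1 hlt)
  have key : ∀ e ∈ G, ∃ x, e = univ.erase x := by
    intro e he
    have : (eᶜ).card = 1 := by rw [card_compl, h1 e he, Fintype.card_fin]; omega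
    obtain ⟨x, hx⟩ := card_eq_one.1 this
    refine ⟨x, ?_⟩
    rw [← compl_compl e, hx]
    ext y; simp
  obtain ⟨c, rfl⟩ := key _ he1
  obtain ⟨b, rfl⟩ := key _ he2
  obtain ⟨a, rfl⟩ := key _ he3
  have hbc : b ≠ c := fun h => h12 (by rw [h])
  have hac : a ≠ c := fun h => h13 (by rw [h])
  have hab : a ≠ b := fun h => h23 (by rw [h])
  refine h2 (((univ.erase a).erase b).erase c) a b c (by simp) (by simp) (by simp) hab hac hbc
    ?_ ?_ ?_
  · convert he1 using 1
    ext y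
    by_cases ha : y = a <;> by_cases hb : y = b <;> simp_all
  · convert he2 using 1
    ext y
    by_cases ha : y = a <;> by_cases hc : y = c <;> simp_all [hbc.symm]
  · convert he3 using 1
    ext y
    by_cases hb : y = b <;> by_cases hc : y = c <;> simp_all [hab.symm, hac.symm]

/-- Blow-up: every vertex is replaced by `m` clones. -/
lemma blowup {V : Type*} [Fintype V] [DecidableEq V] {r : ℕ} {G : Finset (Finset V)}
    (h1 : ∀ e ∈ G, e.card = r) (h2 : Free G) (m : ℕ) :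
    G.card * (m + 1) ^ r ≤ exF (Fintype.card V * (m + 1)) r := by
  classical
  let G' : Finset (Finset (V × Fin (m + 1))) :=
    univ.filter (fun s => s.card = r ∧ s.image Prod.fst ∈ G)
  have hG'1 : ∀ e ∈ G', e.card = r := fun e he => (mem_filter.1 he).2.1
  have hinj : ∀ e ∈ G', Set.InjOn Prod.fst (e : Set (V × Fin (m + 1))) := by
    intro e he
    obtain ⟨a1, a2⟩ := (mem_filter.1 he).2
    exact card_image_iff.1 (by rw [h1 _ a2, a1])
  have hG'2 : Free G' := by
    intro A a b c ha hb hc hab hac hbc e1 e2 e3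
    have i1 := hinj _ e1
    have i2 := hinj _ e2
    have i3 := hinj _ e3
    have e1 := (mem_filter.1 e1).2.2
    have e2 := (mem_filter.1 e2).2.2
    have e3 := (mem_filter.1 e3).2.2
    rw [image_insert, image_insert] at e1 e2 e3
    refine h2 (A.image Prod.fst) a.1 b.1 c.1 ?_ ?_ ?_ ?_ ?_ ?_ e1 e2 e3
    · intro h
      obtain ⟨x, hx, hx'⟩ := mem_image.1 h
      exact ha (i1 (by simp [hx]) (by simp) hx' ▸ hx)
    · intro h
      obtain ⟨x, hx, hx'⟩ := mem_image.1 h
      exact hb (i1 (by simp [hx]) (by simp) hx' ▸ hx)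
    · intro h
      obtain ⟨x, hx, hx'⟩ := mem_image.1 h
      exact hc (i2 (by simp [hx]) (by simp) hx' ▸ hx)
    · exact fun h => hab (i1 (by simp) (by simp) h)
    · exact fun h => hac (i2 (by simp) (by simp) h)
    · exact fun h => hbc (i3 (by simp) (by simp) h)
  have h3 := card_le_exF hG'1 hG'2
  rw [Fintype.card_prod, Fintype.card_fin] at h3
  refine le_trans ?_ h3
  let P : Finset V → Finset (V → Fin (m + 1)) := fun e =>
    Fintype.piFinset (fun x => if x ∈ e then univ else {0})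
  have hP : ∀ e ∈ G, (P e).card = (m + 1) ^ r := by
    intro e he
    have : ∀ x : V, (if x ∈ e then (univ : Finset (Fin (m + 1))) else {0}).card
        = if x ∈ e then m + 1 else 1 := by
      intro x
      by_cases hx : x ∈ e <;> simp [hx]
    simp only [P, Fintype.card_piFinset, this]
    rw [Finset.prod_ite_mem, univ_inter, prod_const, h1 e he]
  have hc : (G.sigma P).card = G.card * (m + 1) ^ r := by
    rw [card_sigma, sum_congr rfl hP, sum_const, smul_eq_mul]
  rw [← hc]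
  have himg : ∀ (e : Finset V) (f : V → Fin (m + 1)),
      (e.image (fun x => (x, f x))).image Prod.fst = e := by
    intro e f
    rw [image_image]
    exact image_id
  refine card_le_card_of_injOn (fun p => p.1.image (fun x => (x, p.2 x))) ?_ ?_
  · intro p hp
    have hp1 : p.1 ∈ G := (mem_sigma.1 (mem_coe.1 hp)).1
    refine mem_coe.2 (mem_filter.2 ⟨mem_univ _, ?_, by rw [himg]; exact hp1⟩)
    rw [card_image_of_injective _ (fun x y h => (Prod.ext_iff.1 h).1), h1 _ hp1]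
  · rintro ⟨e, f⟩ hp ⟨e', f'⟩ hp' h
    have h' : e.image (fun x => (x, f x)) = e'.image (fun x => (x, f' x)) := h
    have hee : e = e' := by rw [← himg e f, h', himg]
    subst hee
    have hf := Fintype.mem_piFinset.1 (mem_sigma.1 (mem_coe.1 hp)).2
    have hf' := Fintype.mem_piFinset.1 (mem_sigma.1 (mem_coe.1 hp')).2
    have : f = f' := by
      funext x
      by_cases hx : x ∈ e
      · have : (x, f x) ∈ e.image (fun x => (x, f' x)) := h' ▸ mem_image_of_mem _ hx
        obtain ⟨y, -, hy⟩ := mem_image.1 this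
        obtain ⟨y1, y2⟩ := Prod.ext_iff.1 hy
        simp only at y1 y2
        rw [← y2, y1]
      · have a1 := hf x
        have a2 := hf' x
        simp only [hx, if_false, mem_singleton] at a1 a2
        rw [a1, a2]
    rw [this]

lemma num1 {d r q : ℕ} (hrd : r = d + 1) (hq1 : 4 * r < q) (hq2 : q ≤ 8 * r) :
    3 / (32 * (r : ℝ)) ≤ ((q : ℝ) - 1) ^ d / (q : ℝ) ^ r := by
  have hrR : (1 : ℝ) ≤ r := by
    have : 1 ≤ r := by omega
    exact_mod_cast this
  have hdR : (d : ℝ) = r - 1 := by rw [hrd]; push_cast; ring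
  have hq1R : 4 * (r : ℝ) < q := by exact_mod_cast hq1
  have hq2R : (q : ℝ) ≤ 8 * r := by exact_mod_cast hq2
  have hqR : (0 : ℝ) < q := by linarith
  have e : ((q : ℝ) - 1) ^ d / (q : ℝ) ^ r = (1 + (-1 / q)) ^ d / q := by
    rw [hrd, pow_succ, show (1 + (-1 / (q : ℝ))) = (q - 1) / q by field_simp; ring, div_pow]
    field_simp
  have b : 1 + (d : ℝ) * (-1 / q) ≤ (1 + (-1 / q)) ^ d := by
    refine one_add_mul_le_pow ?_ d
    rw [le_div_iff₀ hqR]; linarith
  have b2 : (3 : ℝ) / 4 ≤ 1 + (d : ℝ) * (-1 / q) := by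
    have : (d : ℝ) / q ≤ 1 / 4 := by rw [div_le_iff₀ hqR]; linarith
    have e2 : (d : ℝ) * (-1 / q) = -((d : ℝ) / q) := by ring
    linarith
  rw [e]
  calc 3 / (32 * (r : ℝ)) = (3 / 4) / (8 * r) := by field_simp; ring
    _ ≤ (3 / 4) / q := by gcongr
    _ ≤ _ := div_le_div_of_nonneg_right (b2.trans b) hqR.le

lemma num2 {d r q N : ℕ} (hrd : r = d + 1) (hq1 : 4 * r < q) (hN : N = 2 * r ^ 2) :
    (5 : ℝ) / 8 ≤ 1 - d / (q : ℝ) - N / (q : ℝ) ^ 2 := by
  have hrR : (1 : ℝ) ≤ r := by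
    have : 1 ≤ r := by omega
    exact_mod_cast this
  have hdR : (d : ℝ) = r - 1 := by rw [hrd]; push_cast; ring
  have hq1R : 4 * (r : ℝ) < q := by exact_mod_cast hq1
  have hqR : (0 : ℝ) < q := by linarith
  have hNR : (N : ℝ) = 2 * (r : ℝ) ^ 2 := by rw [hN]; push_cast; ring
  have a1 : (d : ℝ) / q ≤ 1 / 4 := by rw [div_le_iff₀ hqR]; linarith
  have a2 : (N : ℝ) / (q : ℝ) ^ 2 ≤ 1 / 8 := by
    rw [div_le_iff₀ (by positivity), hNR]; nlinarith
  linarith

lemma num3 {r N : ℕ} (hr : 1 ≤ r) (hN : N = 2 * r ^ 2) :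
    (N : ℝ) ^ r / 2 / (r.factorial : ℝ) ≤ (N.choose r : ℝ) := by
  have hrR : (1 : ℝ) ≤ r := by exact_mod_cast hr
  have hNR : (N : ℝ) = 2 * (r : ℝ) ^ 2 := by rw [hN]; push_cast; ring
  have hN0 : (0 : ℝ) < N := by rw [hNR]; positivity
  have hrN : r ≤ N := by
    have h0 : r ≤ r ^ 2 := Nat.le_self_pow (by norm_num) r
    omega
  have a1 : ((N + 1 - r : ℕ) : ℝ) ^ r / (r.factorial : ℝ) ≤ N.choose r := Nat.pow_le_choose r N
  have hf : (0 : ℝ) < r.factorial := by exact_mod_cast r.factorial_pos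
  refine le_trans (div_le_div_of_nonneg_right ?_ hf.le) a1
  have a2 : ((N + 1 - r : ℕ) : ℝ) = N + 1 - r := by
    rw [Nat.cast_sub (by omega)]; push_cast; ring
  have a3 : (N : ℝ) * (1 + (-1 / (2 * r))) ≤ N + 1 - r := by
    have : (N : ℝ) * (1 + (-1 / (2 * r))) = N - r := by rw [hNR]; field_simp; ring
    linarith
  have a4 : 1 + (r : ℝ) * (-1 / (2 * r)) ≤ (1 + (-1 / (2 * r))) ^ r := by
    refine one_add_mul_le_pow ?_ r
    rw [le_div_iff₀ (by positivity)]; linarith
  have a5 : 1 + (r : ℝ) * (-1 / (2 * r)) = 1 / 2 := by field_simp; ring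
  have a6 : (0 : ℝ) ≤ 1 + (-1 / (2 * r)) := by
    have : (1 : ℝ) / (2 * r) ≤ 1 := by rw [div_le_iff₀ (by positivity)]; linarith
    have e : (-1 / (2 * (r : ℝ))) = -(1 / (2 * r)) := by ring
    linarith
  rw [a2]
  rw [a5] at a4
  calc (N : ℝ) ^ r / 2 = (N : ℝ) ^ r * (1 / 2) := by ring
    _ ≤ (N : ℝ) ^ r * (1 + (-1 / (2 * r))) ^ r :=
        mul_le_mul_of_nonneg_left a4 (pow_pos hN0 r).le
    _ = ((N : ℝ) * (1 + (-1 / (2 * r)))) ^ r := by rw [mul_pow]
    _ ≤ _ := pow_le_pow_left₀ (mul_nonneg hN0.le a6) a3 r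

/-- A dense free family on `2 r ^ 2` points. -/
lemma exists_dense {r N : ℕ} (hr : 1 ≤ r) (hN : N = 2 * r ^ 2) :
    ∃ G : Finset (Finset (Fin N)), (∀ e ∈ G, e.card = r) ∧ Free G ∧
      1 / (18 * (r : ℝ)) * (N.choose r : ℝ) ≤ G.card := by
  obtain ⟨q, hq, hq1, hq2⟩ := Nat.exists_prime_lt_and_le_two_mul (4 * r) (by omega)
  have : Fact q.Prime := ⟨hq⟩
  have h2 : (2 : ZMod q) ≠ 0 := by
    intro h
    have : ((2 : ℕ) : ZMod q) = 0 := by exact_mod_cast h
    rw [ZMod.natCast_eq_zero_iff] at this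
    have := Nat.le_of_dvd (by norm_num) this
    omega
  obtain ⟨d, hrd⟩ : ∃ d, r = d + 1 := ⟨r - 1, by omega⟩
  obtain ⟨G, hG1, hG2, hG3⟩ := exists_free_dense (Fin N) (ZMod q) h2 d
  rw [Fintype.card_fin, ZMod.card, ← hrd] at hG3
  rw [← hrd] at hG1
  refine ⟨G, hG1, hG2, le_trans (mul_le_mul_of_nonneg_right ?_ (Nat.cast_nonneg _)) hG3⟩
  have hrR : (1 : ℝ) ≤ r := by exact_mod_cast hr
  have f1 := num1 hrd hq1 (by omega)
  have f2 := num2 hrd hq1 hN
  have f0 : (0 : ℝ) ≤ 3 / (32 * (r : ℝ)) := by positivity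
  refine le_trans ?_ (mul_le_mul f1 f2 (by norm_num) (f0.trans f1))
  rw [div_mul_div_comm, div_le_div_iff₀ (by positivity) (by positivity)]
  linarith

/-- The lower bound along multiples of `2 r ^ 2`. -/
lemma lower_mult {r : ℕ} (hr : 1 ≤ r) (m : ℕ) :
    1 / (36 * (r : ℝ))
      ≤ (exF (2 * r ^ 2 * (m + 1)) r : ℝ) / ((2 * r ^ 2 * (m + 1)).choose r : ℕ) := by
  obtain ⟨N, hN⟩ : ∃ N, N = 2 * r ^ 2 := ⟨_, rfl⟩
  rw [← hN]
  obtain ⟨G, hG1, hG2, hG4⟩ := exists_dense hr hN
  have hb := blowup hG1 hG2 m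
  rw [Fintype.card_fin] at hb
  have hrR : (1 : ℝ) ≤ r := by exact_mod_cast hr
  have hrN : r ≤ N := by
    have h0 : r ≤ r ^ 2 := Nat.le_self_pow (by norm_num) r
    omega
  have f3 := num3 hr hN
  have hc0 : (0 : ℝ) < ((N * (m + 1)).choose r : ℕ) := by
    exact_mod_cast Nat.choose_pos (hrN.trans (Nat.le_mul_of_pos_right _ (Nat.succ_pos m)))
  have hc1 : (((N * (m + 1)).choose r : ℕ) : ℝ) ≤ ((N * (m + 1) : ℕ) : ℝ) ^ r / r.factorial :=
    Nat.choose_le_pow_div r _
  have hf : (0 : ℝ) < r.factorial := by exact_mod_cast r.factorial_pos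
  have hb' : (G.card : ℝ) * ((m : ℝ) + 1) ^ r ≤ exF (N * (m + 1)) r := by exact_mod_cast hb
  rw [le_div_iff₀ hc0]
  refine le_trans ?_ hb'
  have hm : (0 : ℝ) < ((m : ℝ) + 1) ^ r := by positivity
  calc 1 / (36 * (r : ℝ)) * (((N * (m + 1)).choose r : ℕ) : ℝ)
      ≤ 1 / (36 * (r : ℝ)) * (((N * (m + 1) : ℕ) : ℝ) ^ r / r.factorial) :=
        mul_le_mul_of_nonneg_left hc1 (by positivity)
    _ = 1 / (18 * (r : ℝ)) * ((N : ℝ) ^ r / 2 / r.factorial) * ((m : ℝ) + 1) ^ r := by
        push_cast; rw [mul_pow]; field_simp; ring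
    _ ≤ 1 / (18 * (r : ℝ)) * (N.choose r : ℝ) * ((m : ℝ) + 1) ^ r :=
        mul_le_mul_of_nonneg_right (mul_le_mul_of_nonneg_left f3 (by positivity)) hm.le
    _ ≤ _ := mul_le_mul_of_nonneg_right hG4 hm.le

theorem density_bounds {r : ℕ} (hr : 1 ≤ r) :
    ∃ π : ℝ, Tendsto (fun n : ℕ => (exF n r : ℝ) / (n.choose r : ℝ)) atTop (𝓝 π) ∧
      1 / (36 * (r : ℝ)) ≤ π ∧ π ≤ 2 / ((r : ℝ) + 1) := by
  have hanti := ratio_antitone r
  have hlow : ∀ k, 1 / (36 * (r : ℝ)) ≤ (exF (k + r) r : ℝ) / ((k + r).choose r : ℕ) := by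
    intro k
    have h1 : k + r ≤ 2 * r ^ 2 * (k + 1) := by
      have h0 : r ≤ r ^ 2 := Nat.le_self_pow (by norm_num) r
      nlinarith
    have h2 := hanti (show k ≤ 2 * r ^ 2 * (k + 1) - r by omega)
    simp only at h2
    rw [Nat.sub_add_cancel (by omega)] at h2
    exact (lower_mult hr k).trans h2
  have hbdd : BddBelow (Set.range fun k => (exF (k + r) r : ℝ) / ((k + r).choose r : ℕ)) :=
    ⟨_, by rintro _ ⟨k, rfl⟩; exact hlow k⟩
  have ht := tendsto_atTop_ciInf hanti hbdd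
  refine ⟨_, (tendsto_add_atTop_iff_nat r).1 ht, le_ciInf hlow, (ciInf_le hbdd 1).trans ?_⟩
  rw [add_comm 1 r, Nat.choose_succ_self_right]
  push_cast
  gcongr
  exact_mod_cast exF_succ_self r

end Pool.Agent.P.MP_7618c8_co
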